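import Pool.Agent.Lib.MP_3e9be7_al.Defs
import Pool.Agent.Lib.MP_3e9be7_al.H3Contr

open Pool.Agent.Lib.MP_3e9be7_al

/-- Thompson's group `F` is not approximable by finite groups with a commutator-contractive
invariant length function: almost multiplicative maps almost kill every element of `F'`. -/
theorem Pool.Agent.Results.MP_3e9be7_al.NotCommContractive.result :
    commutator ThompsonF ≠ ⊥ ∧ ∀ g ∈ commutator ThompsonF,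
      ∃ (S : Finset ThompsonF) (C : ℝ), 0 < C ∧
        ∀ (K : Type) [Group K] [Finite K] (ℓ : K → ℝ), ℓ 1 = 0 → (∀ x, ℓ x⁻¹ = ℓ x) →
          (∀ x y, ℓ (x * y) ≤ ℓ x + ℓ y) → (∀ x y, ℓ (y * x * y⁻¹) = ℓ x) →
          (∀ x y, ℓ (x * y * x⁻¹ * y⁻¹) ≤ 4 * ℓ x * ℓ y) →
          ∀ (φ : ThompsonF → K) (ε : ℝ), 0 < ε → C * ε ≤ 1 →
            (∀ a ∈ S, ∀ b ∈ S, ℓ ((φ (a * b))⁻¹ * (φ a * φ b)) < ε) → ℓ (φ g) ≤ C * ε := by
  refine ⟨fun h => commutator_ne_bot.2 (Subgroup.mem_bot.1 (h ▸ commutator_ne_bot.1)),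
    fun g hg => ?_⟩
  obtain ⟨S, C, C0, h⟩ := not_contr g hg
  exact ⟨S, C, C0, fun K _ _ ℓ h1 h2 h3 h4 h5 φ ε e0 e1 hφ =>
    h K ℓ φ ε ⟨h1, h2, h3, h4, h5⟩ hφ e0.le e1⟩
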