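import Pool.Agent.Lib.MP_3e9be7_al.Defs
import Pool.Agent.Lib.MP_3e9be7_al.H96Approx
import Pool.Agent.Lib.MP_3e9be7_al.H96PL

open Pool.Agent.Lib.MP_3e9be7_al

/-- Thompson's group `F` is weakly sofic, and the approximating finite groups can be taken to be
`p`-groups for any prime `p`. -/
theorem Pool.Agent.Results.MP_3e9be7_al.WeaklySoficByPGroups.result
    (p : ℕ) (hp : p.Prime) (S : Finset ThompsonF) (ε : ℝ) (hε : 0 < ε) :
    ∃ (K : Type) (_ : Group K) (_ : Finite K) (_ : MetricSpace K), IsPGroup p K ∧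
      (∀ x a b : K, dist (x * a) (x * b) = dist a b ∧ dist (a * x) (b * x) = dist a b) ∧
      (∀ a b : K, dist a b ≤ 1) ∧
      ∃ φ : ThompsonF → K, (∀ g ∈ S, ∀ h ∈ S, dist (φ (g * h)) (φ g * φ h) < ε) ∧
        ∀ g ∈ S, g ≠ 1 → dist (φ g) 1 = 1 :=
  haveI : Fact p.Prime := ⟨hp⟩
  approx (locInd_F p) S ε hε
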